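import Pool.Agent.H672R3.SimRec

set_option autoImplicit false

/-!
# Simultaneous patterns of prime gaps at every scale up to the record scale

Design and proof: helper672. It rests on the coloured Maynard-Tao theorem inside the record windows
(`Pool.Agent.H362R2.RQ.stRQ`, helper362), on the record sieve of helper256 and helper410 and on the
Maynard-Tao sieve inside record windows of helper312's team; new is the passage to `l` prescribed systems
of points at once (Ramsey's theorem for the `(m+1)`-subsets of the common index set, applied at each `X`).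
-/

open Filter

namespace Pool.Agent.Results.MP_ff81b6_nt.SimultaneousPatterns

/-- The record scale `f(x) = log x (log₂ x)² log₄ x / (log₃ x)²` (iterated natural logarithms). -/
noncomputable def f (x : ℝ) : ℝ :=
  Real.log x * (Real.log (Real.log x)) ^ 2 * Real.log (Real.log (Real.log (Real.log x))) /
    (Real.log (Real.log (Real.log x))) ^ 2

/-- The indices `n` of the blocks `p_n, ..., p_(n+m)` of consecutive primes of `(X, 4X]` such that
`p_(n+i) ≡ a i (mod q)` for `0 ≤ i ≤ m` and `(p_(n+i+1) - p_(n+i)) / H` differs by at most `δ` from `v i`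
for `0 ≤ i < m` (`p_n` is the prime with index `n`, counted from `0`). -/
def Blocks (m q : ℕ) (a : Fin (m + 1) → ℕ) (X H δ : ℝ) (v : Fin m → ℝ) : Set ℕ :=
  {n | X < (Nat.nth Nat.Prime n : ℝ) ∧ (Nat.nth Nat.Prime (n + m) : ℝ) ≤ 4 * X ∧
    (∀ i : Fin (m + 1), Nat.nth Nat.Prime (n + i) ≡ a i [MOD q]) ∧
    ∀ i : Fin m, |((Nat.nth Nat.Prime (n + i + 1) : ℝ) - Nat.nth Nat.Prime (n + i)) / H - v i| ≤ δ}

/-- For every `m` there is `c > 0` and for every `l` there is `K` such that the following holds. Let `δ > 0`,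
let `q_1, ..., q_l` be squarefree and `X` large. Let `H_1, ..., H_l` be scales in `[log X, c f(X)]`,
for every `s ≤ l` let `β^s_1 < ... < β^s_K` be points of `[0, 1]` and `a^s_1, ..., a^s_K` residues prime to
`q_s`. Then there are `j_0 < ... < j_m`, the same for all `s`, such that for every `s` there are at least
`X^(7/8)` blocks of `m + 1` consecutive primes of `(X, 4X]` which lie in the classes
`a^s_{j_0}, ..., a^s_{j_m}` modulo `q_s` and whose gaps, divided by `H_s`, are within `δ` of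
`β^s_{j_1} - β^s_{j_0}, ..., β^s_{j_m} - β^s_{j_(m-1)}`. -/
theorem result (m : ℕ) : ∃ c : ℝ, 0 < c ∧ ∀ l : ℕ, ∃ K : ℕ, ∀ δ : ℝ, 0 < δ →
    ∀ q : Fin l → ℕ, (∀ s, Squarefree (q s)) → ∃ X₀ : ℝ, ∀ X : ℝ, X₀ ≤ X →
    ∀ (H : Fin l → ℝ) (β : Fin l → Fin K → ℝ) (a : Fin l → Fin K → ℕ),
      (∀ s, Real.log X ≤ H s ∧ H s ≤ c * f X) → (∀ s, StrictMono (β s)) →
      (∀ s j, 0 ≤ β s j ∧ β s j ≤ 1) → (∀ s j, (a s j).Coprime (q s)) →
      ∃ j : Fin (m + 1) → Fin K, StrictMono j ∧ ∀ s,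
        X ^ (7 / 8 : ℝ) ≤ ((Blocks m (q s) (fun i => a s (j i)) X (H s) δ
          (fun i => β s (j i.succ) - β s (j i.castSucc))).ncard : ℝ) := by
  obtain ⟨c, hc, h⟩ := Pool.Agent.H672R3.SimRec.simultaneous m
  refine ⟨c, hc, fun l => ?_⟩
  obtain ⟨K, hK⟩ := h l
  exact ⟨K, fun δ hδ q hq => eventually_atTop.1 (hK δ hδ q hq)⟩

/-- Special case: for all `m`, `l` there is `ε > 0` such that for all `r_1, ..., r_l ∈ (0, 1]`, all large `X`
and every scale `H ∈ [log X, c f(X)]` there is one vector `v ∈ [ε, 1]^m` for which each of the dilates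
`r_1 v, ..., r_l v` is, up to `δ`, the vector of gaps divided by `H` of at least `X^(7/8)` blocks. -/
theorem dilates (m : ℕ) : ∃ c : ℝ, 0 < c ∧ ∀ l : ℕ, ∃ ε : ℝ, 0 < ε ∧ ∀ δ : ℝ, 0 < δ → ∃ X₀ : ℝ,
    ∀ X : ℝ, X₀ ≤ X → ∀ H : ℝ, Real.log X ≤ H → H ≤ c * f X →
    ∀ r : Fin l → ℝ, (∀ s, 0 < r s ∧ r s ≤ 1) →
      ∃ v : Fin m → ℝ, (∀ i, ε ≤ v i ∧ v i ≤ 1) ∧ ∀ s,
        X ^ (7 / 8 : ℝ) ≤ ((Blocks m 1 (fun _ => 0) X H δ (fun i => r s * v i)).ncard : ℝ) := by
  obtain ⟨c, hc, h⟩ := result m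
  refine ⟨c, hc, fun l => ?_⟩
  obtain ⟨K, hK⟩ := h l
  refine ⟨1 / (K + 1), by positivity, fun δ hδ => ?_⟩
  obtain ⟨X₀, hX₀⟩ := hK δ hδ (fun _ => 1) (fun _ => squarefree_one)
  refine ⟨X₀, fun X hX H hH1 hH2 r hr => ?_⟩
  have hKr : (0 : ℝ) < K + 1 := by positivity
  obtain ⟨j, hj, hjs⟩ := hX₀ X hX (fun _ => H) (fun s k => r s * ((k : ℕ) / (K + 1))) (fun _ _ => 0)
    (fun _ => ⟨hH1, hH2⟩)
    (fun s a b hab => by
      have h1 : ((a : ℕ) : ℝ) < (b : ℕ) := by exact_mod_cast hab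
      have h2 : ((a : ℕ) : ℝ) / (K + 1) < (b : ℕ) / (K + 1) := div_lt_div_of_pos_right h1 hKr
      exact mul_lt_mul_of_pos_left h2 (hr s).1)
    (fun s k => by
      have h1 : ((k : ℕ) : ℝ) ≤ K + 1 := by
        have : (k : ℕ) ≤ K := k.2.le
        have : ((k : ℕ) : ℝ) ≤ K := by exact_mod_cast this
        linarith
      have h2 : ((k : ℕ) : ℝ) / (K + 1) ≤ 1 := (div_le_one hKr).2 h1
      have h3 : (0 : ℝ) ≤ ((k : ℕ) : ℝ) / (K + 1) := by positivity
      have := hr s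
      exact ⟨mul_nonneg (hr s).1.le h3, by nlinarith⟩)
    (fun s k => by simp)
  refine ⟨fun i => ((j i.succ : ℕ) - (j i.castSucc : ℕ)) / (K + 1), fun i => ?_, fun s => ?_⟩
  · have h1 : j i.castSucc < j i.succ := hj Fin.castSucc_lt_succ
    have h2 : ((j i.castSucc : ℕ) : ℝ) + 1 ≤ (j i.succ : ℕ) := by exact_mod_cast h1
    have h3 : ((j i.succ : ℕ) : ℝ) ≤ K := by exact_mod_cast (j i.succ).2.le
    have h4 : (0 : ℝ) ≤ ((j i.castSucc : ℕ) : ℝ) := Nat.cast_nonneg _
    constructor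
    · apply div_le_div_of_nonneg_right _ hKr.le
      linarith
    · rw [div_le_one hKr]
      linarith
  · convert hjs s using 5
    ring

end Pool.Agent.Results.MP_ff81b6_nt.SimultaneousPatterns
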